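import Mathlib
import Pool.Agent.V11294.RP.Grd

/-!
# The reversed-prime Schnirelmann constant is `O(log b)`, uniformly in the base `b`

The proof: a Selberg majorant for the primes of a residue class modulo `b (b² - 1)`, its exponential
sum over reversed integers (a product of digit sums), an energy bound that is uniform in the base,
the sunrise lemma and Schnirelmann's theorem, and a greedy descent along the leading digits.
-/

namespace Pool.Agent.Results.MP_eac634_nt.LogBound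

open Pool.Agent.V11294.RP

theorem result : ∃ C : ℝ, 0 < C ∧ ∀ b : ℕ, 2 ≤ b → ∃ K : ℕ,
    IsLeast {K : ℕ | 2 ≤ K ∧ ∃ N₀ : ℕ, ∀ N : ℕ, N₀ ≤ N → ∃ l : List ℕ, l.length ≤ K ∧
      (∀ m ∈ l, ∃ p : ℕ, p.Prime ∧ m = Nat.ofDigits b (Nat.digits b p).reverse) ∧ l.sum = N} K ∧
    (K : ℝ) ≤ C * Real.log b := by
  classical
  obtain ⟨C, hC, h⟩ := main_thm
  refine ⟨C, hC, ?_⟩
  intro b hb
  obtain ⟨K, hK2, hKC, N0, hN0⟩ := h b hb
  set S : Set ℕ := {K : ℕ | 2 ≤ K ∧ ∃ N₀ : ℕ, ∀ N : ℕ, N₀ ≤ N → ∃ l : List ℕ, l.length ≤ K ∧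
      (∀ m ∈ l, ∃ p : ℕ, p.Prime ∧ m = Nat.ofDigits b (Nat.digits b p).reverse) ∧ l.sum = N} with hS
  have hmem : K ∈ S := ⟨hK2, N0, fun N hN => hN0 N hN⟩
  have hne : S.Nonempty := ⟨K, hmem⟩
  refine ⟨sInf S, ⟨Nat.sInf_mem hne, fun x hx => Nat.sInf_le hx⟩, ?_⟩
  have h1 : sInf S ≤ K := Nat.sInf_le hmem
  have h2 : ((sInf S : ℕ) : ℝ) ≤ K := by exact_mod_cast h1
  exact h2.trans hKC

end Pool.Agent.Results.MP_eac634_nt.LogBound
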